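import Pool.Agent.DTW.Multi

namespace Pool.Agent.DTW

open Relation Finset

universe u v

variable {V : Type u} {D : Digraph V} {N : Type v}

namespace ArborealDecomposition

/-- `s` is a descendant of `t` (or `s = t`) -/
def Desc (A : ArborealDecomposition D N) (s t : N) : Prop := ∃ i : ℕ, A.parent^[i] s = t

variable (A : ArborealDecomposition D N)

theorem desc_refl (s : N) : A.Desc s s := ⟨0, rfl⟩

theorem desc_trans {r s t : N} (h : A.Desc r s) (h' : A.Desc s t) : A.Desc r t := by
  obtain ⟨i, hi⟩ := h
  obtain ⟨j, hj⟩ := h'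
  exact ⟨j + i, by rw [Function.iterate_add_apply, hi, hj]⟩

theorem desc_chain {r s t : N} (h : A.Desc r s) (h' : A.Desc r t) : A.Desc s t ∨ A.Desc t s := by
  obtain ⟨i, hi⟩ := h
  obtain ⟨j, hj⟩ := h'
  rcases le_total i j with hij | hij
  · left
    refine ⟨j - i, ?_⟩
    rw [← hi, ← Function.iterate_add_apply, Nat.sub_add_cancel hij, hj]
  · right
    refine ⟨i - j, ?_⟩
    rw [← hj, ← Function.iterate_add_apply, Nat.sub_add_cancel hij, hi]

theorem iterate_root (n : ℕ) : A.parent^[n] A.root = A.root := by
  induction n with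
  | zero => rfl
  | succ n ih => rw [Function.iterate_succ_apply, A.parent_root, ih]

theorem desc_antisymm {s t : N} (h : A.Desc s t) (h' : A.Desc t s) : s = t := by
  obtain ⟨i, hi⟩ := h
  obtain ⟨j, hj⟩ := h'
  by_cases h0 : i = 0
  · subst h0; exact hi
  · have hp : A.parent^[j + i] s = s := by rw [Function.iterate_add_apply, hi, hj]
    have hq : ∀ q : ℕ, A.parent^[(j + i) * q] s = s := by
      intro q
      rw [Function.iterate_mul]
      exact Function.iterate_fixed hp q
    obtain ⟨r, hr⟩ := A.reach s
    have hle : r ≤ (j + i) * (r + 1) := by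
      have : 1 ≤ j + i := by omega
      nlinarith
    have h1 := hq (r + 1)
    have h2 : A.parent^[(j + i) * (r + 1)] s = A.root := by
      rw [← Nat.sub_add_cancel hle, Function.iterate_add_apply, hr, A.iterate_root]
    have hs : s = A.root := h1.symm.trans h2
    rw [hs, A.iterate_root] at hi
    rw [hs, ← hi]

theorem desc_root (s : N) : A.Desc s A.root := A.reach s

/-- the node at home of which `x` is -/
noncomputable def home (x : V) : N := (A.partition x).choose

theorem home_mem (x : V) : x ∈ A.W (A.home x) := (A.partition x).choose_spec.1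

theorem home_eq {x : V} {t : N} (h : x ∈ A.W t) : t = A.home x :=
  (A.partition x).choose_spec.2 t h

/-- the world of an arboreal decomposition -/
noncomputable def toWorld [Fintype V] {w : ℕ} (hw : A.WidthLE w) : World D w := by
  classical
  let e : V ≃ Fin (Fintype.card V) := Fintype.equivFin V
  refine
    { S := fun x => Finset.univ.filter (fun y => (A.home y = A.home x ∧ e x ≤ e y) ∨
        (A.Desc (A.home y) (A.home x) ∧ A.home y ≠ A.home x))
      G := fun x => Finset.univ.filter (fun y => (A.home x ≠ A.root ∧ y ∈ A.X (A.home x)) ∨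
        (A.home y = A.home x ∧ e y < e x))
      self := ?_, trans := ?_, antisymm := ?_, chain := ?_, disj := ?_, card := ?_, guard := ?_ }
  · intro x
    simp
  · intro x y hxy z hz
    simp only [Finset.mem_filter, Finset.mem_univ, true_and] at hxy hz ⊢
    rcases hxy with ⟨h1, h2⟩ | ⟨h1, h2⟩ <;> rcases hz with ⟨h3, h4⟩ | ⟨h3, h4⟩
    · exact Or.inl ⟨h3.trans h1, h2.trans h4⟩
    · right; rw [← h1]; exact ⟨h3, h4⟩
    · right; rw [h3]; exact ⟨h1, h2⟩
    · right
      refine ⟨A.desc_trans h3 h1, ?_⟩
      intro h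
      apply h4
      exact A.desc_antisymm h3 (h ▸ h1)
  · intro x y hxy hyx
    simp only [Finset.mem_filter, Finset.mem_univ, true_and] at hxy hyx
    rcases hxy with ⟨h1, h2⟩ | ⟨h1, h2⟩ <;> rcases hyx with ⟨h3, h4⟩ | ⟨h3, h4⟩
    · exact e.injective (le_antisymm h4 h2)
    · exact absurd h1.symm h4
    · exact absurd h3.symm h2
    · exact absurd (A.desc_antisymm h1 h3) h2
  · intro z x y hx hy
    simp only [Finset.mem_filter, Finset.mem_univ, true_and] at hx hy ⊢
    have hdx : A.Desc (A.home z) (A.home x) := by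
      rcases hx with ⟨h, _⟩ | ⟨h, _⟩
      · rw [h]; exact A.desc_refl _
      · exact h
    have hdy : A.Desc (A.home z) (A.home y) := by
      rcases hy with ⟨h, _⟩ | ⟨h, _⟩
      · rw [h]; exact A.desc_refl _
      · exact h
    by_cases heq : A.home x = A.home y
    · rcases le_total (e x) (e y) with h | h
      · exact Or.inr (Or.inl ⟨heq.symm, h⟩)
      · exact Or.inl (Or.inl ⟨heq, h⟩)
    · rcases A.desc_chain hdx hdy with h | h
      · exact Or.inl (Or.inr ⟨h, heq⟩)
      · exact Or.inr (Or.inr ⟨h, fun h' => heq h'.symm⟩)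
  · intro x y hy hyS
    simp only [Finset.mem_filter, Finset.mem_univ, true_and] at hy hyS
    rcases hy with ⟨hr, hX⟩ | ⟨h1, h2⟩
    · have hn := (A.normal _ hr).1
      refine Set.disjoint_left.1 hn ?_ hX
      refine ⟨A.home y, ?_, A.home_mem y⟩
      rcases hyS with ⟨h, _⟩ | ⟨h, _⟩
      · rw [h]; exact A.desc_refl _
      · exact h
    · rcases hyS with ⟨_, h⟩ | ⟨_, h⟩
      · exact absurd h (not_le.2 h2)
      · exact h h1
  · intro x
    set G : Finset V := Finset.univ.filter (fun y => (A.home x ≠ A.root ∧ y ∈ A.X (A.home x)) ∨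
        (A.home y = A.home x ∧ e y < e x)) with hG
    have hxG : x ∉ G := by
      intro hmem
      rcases (Finset.mem_filter.1 hmem).2 with ⟨hr, hX⟩ | ⟨_, h⟩
      · exact Set.disjoint_left.1 (A.normal _ hr).1 ⟨A.home x, A.desc_refl _, A.home_mem x⟩ hX
      · exact absurd h (lt_irrefl _)
    have hsub : ((insert x G : Finset V) : Set V) ⊆ A.bag (A.home x) := by
      intro y hy
      rw [Finset.coe_insert, Set.mem_insert_iff] at hy
      rcases hy with rfl | hy
      · exact Or.inl (A.home_mem y)
      · simp only [hG, Finset.coe_filter, Finset.mem_univ, true_and, Set.mem_ofPred_eq] at hy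
        rcases hy with h | ⟨h, _⟩
        · exact Or.inr (Or.inl h)
        · left
          rw [← h]
          exact A.home_mem y
    have h1 := (Set.encard_le_encard hsub).trans (hw (A.home x))
    rw [Set.encard_coe_eq_coe_finsetCard, Finset.card_insert_of_notMem hxG] at h1
    have h2 : G.card + 1 ≤ w + 1 := by exact_mod_cast h1
    omega
  · intro x a ha b hb ⟨hab, hba⟩
    set Gs : Set V := {y | y ∉ (Finset.univ.filter (fun y =>
      (A.home x ≠ A.root ∧ y ∈ A.X (A.home x)) ∨ (A.home y = A.home x ∧ e y < e x)))} with hGs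
    have hne : a ≠ b := fun h => hb (h ▸ ha)
    have hbG : b ∈ Gs := by
      rcases (ReflTransGen.cases_tail_iff _ a b).1 hab with h | ⟨z, _, hz⟩
      · exact absurd h.symm hne
      · exact hz.2.2
    simp only [Finset.mem_filter, Finset.mem_univ, true_and, not_or, not_and] at ha hb
    have hbG' : (A.home x ≠ A.root → b ∉ A.X (A.home x)) ∧ (A.home b = A.home x → ¬ e b < e x) := by
      simpa [hGs, not_or, not_and] using hbG
    by_cases hd : A.Desc (A.home b) (A.home x)
    · by_cases hh : A.home b = A.home x
      · exact hbG'.2 hh (not_le.1 (hb.1 hh))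
      · exact hb.2 hd hh
    · have hr : A.home x ≠ A.root := by
        intro h
        exact hd (h ▸ A.desc_root _)
      have hn := (A.normal _ hr).2
      have haS : a ∈ {y | ∃ t, (∃ i : ℕ, A.parent^[i] t = A.home x) ∧ y ∈ A.W t} := by
        refine ⟨A.home a, ?_, A.home_mem a⟩
        rcases ha with ⟨h, _⟩ | ⟨h, _⟩
        · rw [h]; exact A.desc_refl _
        · exact h
      have hsub : Gs ⊆ (A.X (A.home x))ᶜ := by
        intro y hy hX
        have : (A.home x ≠ A.root → y ∉ A.X (A.home x)) ∧
            (A.home y = A.home x → ¬ e y < e x) := by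
          simpa [hGs, not_or, not_and] using hy
        exact this.1 hr hX
      refine hn a haS a haS b ?_ ⟨rtg_mono hsub hab, rtg_mono hsub hba⟩
      rintro (⟨t, ht, hbt⟩ | hX)
      · rw [A.home_eq hbt] at ht
        exact hd ht
      · exact hbG'.1 hr hX

end ArborealDecomposition

/-- the trivial decomposition with one node -/
theorem dtw_mem [Fintype V] [Nonempty V] (D : Digraph V) :
    ∃ (m : ℕ) (A : ArborealDecomposition D (Fin m)), A.WidthLE (dtw D) := by
  have hne : {w : ℕ | ∃ (m : ℕ) (A : ArborealDecomposition D (Fin m)), A.WidthLE w}.Nonempty := by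
    refine ⟨Fintype.card V, 1, ?_, ?_⟩
    · exact
      { root := 0
        parent := fun _ => 0
        reach := fun t => ⟨0, Subsingleton.elim _ _⟩
        parent_root := rfl
        W := fun _ => Set.univ
        X := fun _ => ∅
        nonempty := fun _ => Set.univ_nonempty
        partition := fun x => ⟨0, Set.mem_univ _, fun t _ => Subsingleton.elim _ _⟩
        normal := fun s hs => absurd (Subsingleton.elim _ _) hs }
    · intro t
      refine (Set.encard_le_encard (Set.subset_univ _)).trans ?_
      rw [Set.encard_univ, ENat.card_eq_coe_fintype_card]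
      exact le_self_add
  exact Nat.sInf_mem hne

theorem main {V : Type u} [Fintype V] (D : Digraph V) (hD : ∀ v, ¬ D.Adj v v) (k : ℕ)
    (hk : dtw D + 2 ≤ k) :
    (dicolouringGraph D k).Connected ∧
      (dicolouringGraph D k).ediam ≤
        (((dtw D + 1) * (Fintype.card V * (Fintype.card V + 1)) + 2 * Fintype.card V : ℕ) : ℕ∞) := by
  have key : (∃ α : V → Fin k, IsDicolouring D k α) ∧
      ∀ α β : V → Fin k, IsDicolouring D k α → IsDicolouring D k β →
        Link D k ((dtw D + 1) * (Fintype.card V * (Fintype.card V + 1)) + 2 * Fintype.card V)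
          α β := by
    cases isEmpty_or_nonempty V
    · have hdic : ∀ α : V → Fin k, IsDicolouring D k α := fun α i v => (IsEmpty.false v).elim
      refine ⟨⟨fun v => (IsEmpty.false v).elim, hdic _⟩, ?_⟩
      intro α β hα hβ
      have : α = β := funext fun v => (IsEmpty.false v).elim
      subst this
      exact (Link.refl hα).mono (Nat.zero_le _)
    · obtain ⟨m, A, hA⟩ := dtw_mem D
      exact world_link (A.toWorld hA) hD hk
  obtain ⟨⟨α0, hα0⟩, hlink⟩ := key
  have : Nonempty {α : V → Fin k // IsDicolouring D k α} := ⟨⟨α0, hα0⟩⟩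
  have hed : (dicolouringGraph D k).ediam ≤
      (((dtw D + 1) * (Fintype.card V * (Fintype.card V + 1)) + 2 * Fintype.card V : ℕ) : ℕ∞) := by
    refine SimpleGraph.ediam_le_of_edist_le ?_
    rintro ⟨α, hα⟩ ⟨β, hβ⟩
    obtain ⟨_, _, p, hp⟩ := hlink α β hα hβ
    exact (SimpleGraph.Walk.edist_le p).trans (by exact_mod_cast hp)
  refine ⟨?_, hed⟩
  refine SimpleGraph.connected_of_ediam_ne_top ?_
  intro h
  rw [h] at hed
  exact absurd (top_le_iff.1 hed) (ENat.natCast_ne_top _)

end Pool.Agent.DTW
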