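import Pool.Agent.DTW.Defs

namespace Pool.Agent.DTW

open Relation Finset

universe u v

variable {V : Type u} {D : Digraph V}

/-! ### acyclic sets -/

theorem StepIn.mono {T T' : Set V} (h : T ⊆ T') {a b : V} (hs : StepIn D T a b) :
    StepIn D T' a b := ⟨hs.1, h hs.2.1, h hs.2.2⟩

theorem tg_mono {T T' : Set V} (h : T ⊆ T') {a b : V} (hab : TransGen (StepIn D T) a b) :
    TransGen (StepIn D T') a b :=
  TransGen.mono (r := StepIn D T) (p := StepIn D T') (fun _ _ hs => StepIn.mono h hs) a b hab

theorem rtg_mono {T T' : Set V} (h : T ⊆ T') {a b : V} (hab : ReflTransGen (StepIn D T) a b) :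
    ReflTransGen (StepIn D T') a b :=
  ReflTransGen.mono (r := StepIn D T) (p := StepIn D T') (fun _ _ hs => StepIn.mono h hs) a b hab

theorem AcyclicOn.mono {T T' : Set V} (h : T ⊆ T') (hT : AcyclicOn D T') : AcyclicOn D T :=
  fun v hv => hT v (tg_mono h hv)

/-- if all vertices that are strongly connected to `x` inside `T` lie in `U`, a closed walk of `T`
through `x` is a closed walk in `T ∩ U`. -/
theorem closed_restrict {T U : Set V} {x : V}
    (hU : ∀ y, ReflTransGen (StepIn D T) x y → ReflTransGen (StepIn D T) y x → y ∈ U)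
    (h : TransGen (StepIn D T) x x) : TransGen (StepIn D (T ∩ U)) x x := by
  have key : ∀ z, ReflTransGen (StepIn D T) x z → ReflTransGen (StepIn D T) z x →
      ReflTransGen (StepIn D (T ∩ U)) x z := by
    intro z hz
    induction hz with
    | refl => intro _; exact ReflTransGen.refl
    | @tail y z hy hyz ih =>
      intro hzx
      have hyx : ReflTransGen (StepIn D T) y x := ReflTransGen.head hyz hzx
      refine (ih hyx).tail ⟨hyz.1, ⟨hyz.2.1, hU y hy hyx⟩, ⟨hyz.2.2, hU z (hy.tail hyz) hzx⟩⟩
  obtain ⟨y, hy, hyx⟩ := TransGen.tail'_iff.1 h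
  have h1 := key y hy (ReflTransGen.single hyx)
  refine TransGen.tail' h1 ⟨hyx.1, ⟨hyx.2.1, hU y hy (ReflTransGen.single hyx)⟩,
    ⟨hyx.2.2, hU x ReflTransGen.refl ReflTransGen.refl⟩⟩

/-! ### links -/

/-- `β` can be reached from `α` by recolouring at most `m` times one vertex. -/
def Link (D : Digraph V) (k m : ℕ) (α β : V → Fin k) : Prop :=
  ∃ (hα : IsDicolouring D k α) (hβ : IsDicolouring D k β)
    (p : (dicolouringGraph D k).Walk ⟨α, hα⟩ ⟨β, hβ⟩), p.length ≤ m

variable {k : ℕ}

theorem Link.left {m : ℕ} {α β : V → Fin k} (h : Link D k m α β) : IsDicolouring D k α := h.1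

theorem Link.right {m : ℕ} {α β : V → Fin k} (h : Link D k m α β) : IsDicolouring D k β := h.2.1

theorem Link.refl {α : V → Fin k} (h : IsDicolouring D k α) : Link D k 0 α α :=
  ⟨h, h, SimpleGraph.Walk.nil, le_refl _⟩

theorem Link.trans {m m' : ℕ} {α β γ : V → Fin k} (h : Link D k m α β) (h' : Link D k m' β γ) :
    Link D k (m + m') α γ := by
  obtain ⟨hα, hβ, p, hp⟩ := h
  obtain ⟨hβ', hγ, q, hq⟩ := h'
  exact ⟨hα, hγ, p.append q, by rw [SimpleGraph.Walk.length_append]; omega⟩

theorem Link.symm {m : ℕ} {α β : V → Fin k} (h : Link D k m α β) : Link D k m β α := by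
  obtain ⟨hα, hβ, p, hp⟩ := h
  exact ⟨hβ, hα, p.reverse, by rw [SimpleGraph.Walk.length_reverse]; omega⟩

theorem Link.mono {m m' : ℕ} (hm : m ≤ m') {α β : V → Fin k} (h : Link D k m α β) :
    Link D k m' α β := by
  obtain ⟨hα, hβ, p, hp⟩ := h
  exact ⟨hα, hβ, p, hp.trans hm⟩

theorem Link.step {α β : V → Fin k} (hα : IsDicolouring D k α) (hβ : IsDicolouring D k β)
    (x : V) (hx : ∀ y, y ≠ x → α y = β y) : Link D k 1 α β := by
  by_cases h : α x = β x
  · have : α = β := by
      funext y
      by_cases hy : y = x
      · rw [hy, h]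
      · exact hx y hy
    subst this
    exact (Link.refl hα).mono (Nat.zero_le _)
  · have hadj : (dicolouringGraph D k).Adj ⟨α, hα⟩ ⟨β, hβ⟩ :=
      ⟨x, h, fun y hy => by
        by_contra hne
        exact hy (hx y hne)⟩
    exact ⟨hα, hβ, SimpleGraph.Walk.cons hadj SimpleGraph.Walk.nil, le_refl _⟩

/-- recolour the vertices of `Q` to `b` -/
noncomputable def recol (α : V → Fin k) (Q : Set V) (b : Fin k) : V → Fin k :=
  open Classical in fun x => if x ∈ Q then b else α x

theorem recol_mem {α : V → Fin k} {Q : Set V} {b : Fin k} {x : V} (h : x ∈ Q) :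
    recol α Q b x = b := by simp [recol, h]

theorem recol_not {α : V → Fin k} {Q : Set V} {b : Fin k} {x : V} (h : x ∉ Q) :
    recol α Q b x = α x := by simp [recol, h]

/-- class move: if recolouring any subset of `Q` to `b` gives a dicolouring, then all of `Q` can be
recoloured to `b` in `|Q|` steps. -/
theorem link_recol (α : V → Fin k) (b : Fin k) (Q : Finset V)
    (h : ∀ Q' : Set V, Q' ⊆ (Q : Set V) → IsDicolouring D k (recol α Q' b)) :
    Link D k Q.card α (recol α (Q : Set V) b) := by
  classical
  induction Q using Finset.induction_on with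
  | empty =>
    have h0 := h ∅ (Set.empty_subset _)
    have e : recol α ((∅ : Finset V) : Set V) b = α := by
      funext x; exact recol_not (by simp)
    have e' : recol α (∅ : Set V) b = α := by
      funext x; exact recol_not (by simp)
    rw [e]
    rw [e'] at h0
    exact Link.refl h0
  | @insert a Q ha ih =>
    have h1 := ih (fun Q' hQ' => h Q' (hQ'.trans (by simp)))
    have h2 : Link D k 1 (recol α (Q : Set V) b) (recol α ((insert a Q : Finset V) : Set V) b) := by
      refine Link.step h1.right (h _ (subset_refl _)) a ?_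
      intro y hy
      by_cases hyQ : y ∈ Q
      · rw [recol_mem (by exact_mod_cast hyQ), recol_mem (by simp [hyQ])]
      · rw [recol_not (by exact_mod_cast hyQ), recol_not (by simp [hyQ, hy])]
    rw [Finset.card_insert_of_notMem ha]
    exact h1.trans h2

/-! ### guarded families -/

/-- A rooted tree order on `V` (`S x` is the set of descendants of `x`) with guards `G x` of at most
`w` elements. -/
structure World (D : Digraph V) (w : ℕ) where
  S : V → Finset V
  G : V → Finset V
  self : ∀ x, x ∈ S x
  trans : ∀ x y, x ∈ S y → S x ⊆ S y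
  antisymm : ∀ x y, x ∈ S y → y ∈ S x → x = y
  chain : ∀ z x y, z ∈ S x → z ∈ S y → x ∈ S y ∨ y ∈ S x
  disj : ∀ x, ∀ y ∈ G x, y ∉ S x
  card : ∀ x, (G x).card ≤ w
  guard : ∀ x, ∀ a ∈ S x, ∀ b, b ∉ S x →
    ¬ (ReflTransGen (StepIn D {y | y ∉ G x}) a b ∧ ReflTransGen (StepIn D {y | y ∉ G x}) b a)

/-- Legality of moving the class `m` inside `S x` to a colour `m'` absent from `S x ∪ G x`. -/
theorem legal {w : ℕ} (R : World D w) {α : V → Fin k} (hα : IsDicolouring D k α) (x : V)
    {m m' : Fin k} (hS : ∀ y ∈ R.S x, α y ≠ m') (hG : ∀ y ∈ R.G x, α y ≠ m')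
    (Q' : Set V) (hQ : ∀ y ∈ Q', y ∈ R.S x ∧ α y = m) : IsDicolouring D k (recol α Q' m') := by
  intro i v hv
  by_cases hi : i = m'
  · subst hi
    set T : Set V := {y | recol α Q' i y = i} with hT
    -- no vertex of T is in G x
    have hTG : ∀ y ∈ T, y ∉ R.G x := by
      intro y hy hyG
      have hyS := R.disj x y hyG
      have : y ∉ Q' := fun h => hyS (hQ y h).1
      have h2 : recol α Q' i y = i := hy
      rw [recol_not this] at h2
      exact hG y hyG h2
    have hsub : T ⊆ {y | y ∉ R.G x} := fun y hy => hTG y hy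
    have hlift : ∀ a b, ReflTransGen (StepIn D T) a b →
        ReflTransGen (StepIn D {y | y ∉ R.G x}) a b := by
      intro a b h
      exact rtg_mono hsub h
    by_cases hvS : v ∈ R.S x
    · have h1 : TransGen (StepIn D (T ∩ {y | y ∈ R.S x})) v v := by
        refine closed_restrict ?_ hv
        intro y hvy hyv
        by_contra hyS
        exact R.guard x v hvS y hyS ⟨hlift _ _ hvy, hlift _ _ hyv⟩
      refine (hα m) v (tg_mono ?_ h1)
      rintro y ⟨hyT, hyS⟩
      have h2 : recol α Q' i y = i := hyT
      by_cases hyQ : y ∈ Q'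
      · exact (hQ y hyQ).2
      · rw [recol_not hyQ] at h2
        exact absurd h2 (hS y hyS)
    · have h1 : TransGen (StepIn D (T ∩ {y | y ∉ R.S x})) v v := by
        refine closed_restrict ?_ hv
        intro y hvy hyv hyS
        exact R.guard x y hyS v hvS ⟨hlift _ _ hyv, hlift _ _ hvy⟩
      refine (hα i) v (tg_mono ?_ h1)
      rintro y ⟨hyT, hyS⟩
      have h2 : recol α Q' i y = i := hyT
      have hyQ : y ∉ Q' := fun h => hyS (hQ y h).1
      rw [recol_not hyQ] at h2
      exact h2
  · refine (hα i) v (tg_mono ?_ hv)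
    intro y hy
    have h2 : recol α Q' m' y = i := hy
    by_cases hyQ : y ∈ Q'
    · rw [recol_mem hyQ] at h2
      exact absurd h2.symm hi
    · rw [recol_not hyQ] at h2
      exact h2

/-- triangular numbers -/
def tri (n : ℕ) : ℕ := n * (n + 1) / 2

theorem two_tri (n : ℕ) : 2 * tri n = n * (n + 1) := by
  unfold tri
  exact Nat.mul_div_cancel' (Nat.even_mul_succ_self n).two_dvd

theorem tri_add (a b : ℕ) : tri a + tri b + (b + 1) ≤ tri (a + b + 1) := by
  have h1 := two_tri a
  have h2 := two_tri b
  have h3 := two_tri (a + b + 1)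
  nlinarith [Nat.zero_le (a * b)]

theorem tri_mono {a b : ℕ} (h : a ≤ b) : tri a ≤ tri b := by
  have h1 := two_tri a
  have h2 := two_tri b
  nlinarith

/-- Lemma M: every colour of `C` can be freed from a relatively down-closed part `P` of `U`. -/
theorem free_colour [DecidableEq V] {w : ℕ} (R : World D w) (U : Finset V) (C : Finset (Fin k))
    (hC : ∀ x ∈ U, ((R.G x).filter (fun y => y ∈ U)).card + 2 ≤ C.card) :
    ∀ (n : ℕ) (P : Finset V), P.card = n → P ⊆ U →
      (∀ x ∈ P, ∀ y ∈ R.S x, y ∈ U → y ∈ P) →
      ∀ (α : V → Fin k), IsDicolouring D k α → (∀ x, α x ∈ C ↔ x ∈ U) → ∀ m ∈ C,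
        ∃ β : V → Fin k, Link D k (tri n) α β ∧ (∀ x, x ∉ P → β x = α x) ∧
          (∀ x ∈ P, β x ∈ C ∧ β x ≠ m) := by
  classical
  intro n
  induction n using Nat.strong_induction_on with
  | _ n ih =>
    intro P hPn hPU hP α hα hαC m hm
    rcases P.eq_empty_or_nonempty with h0 | hne
    · subst h0
      exact ⟨α, (Link.refl hα).mono (Nat.zero_le _), fun x _ => rfl, fun x hx => by simp at hx⟩
    · -- a maximal element of P
      obtain ⟨x, hxP, hxmax⟩ := Finset.exists_max_image P (fun y => (R.S y).card) hne
      have hmax : ∀ y ∈ P, x ∈ R.S y → y = x := by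
        intro y hy hxy
        have hsub := R.trans x y hxy
        have hcard := hxmax y hy
        have heq : R.S x = R.S y := Finset.eq_of_subset_of_card_le hsub hcard
        have : y ∈ R.S x := heq ▸ R.self y
        exact R.antisymm y x this hxy
      set P1 : Finset V := P.filter (fun y => y ∉ R.S x) with hP1
      set P2 : Finset V := P.filter (fun y => y ∈ R.S x ∧ y ≠ x) with hP2
      have hcardsum : P.card = P1.card + P2.card + 1 := by
        have hx1 : x ∉ P1 ∪ P2 := by simp [hP1, hP2, R.self x]
        have hd : Disjoint P1 P2 := by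
          rw [Finset.disjoint_left]
          intro y h1 h2
          simp only [hP1, hP2, Finset.mem_filter] at h1 h2
          exact h1.2 h2.2.1
        have he : P = insert x (P1 ∪ P2) := by
          ext y
          simp only [hP1, hP2, Finset.mem_insert, Finset.mem_union, Finset.mem_filter]
          constructor
          · intro hy
            by_cases hyx : y = x
            · exact Or.inl hyx
            · by_cases hyS : y ∈ R.S x
              · exact Or.inr (Or.inr ⟨hy, hyS, hyx⟩)
              · exact Or.inr (Or.inl ⟨hy, hyS⟩)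
          · rintro (rfl | h | h)
            · exact hxP
            · exact h.1
            · exact h.1
        conv_lhs => rw [he]
        rw [Finset.card_insert_of_notMem hx1, Finset.card_union_of_disjoint hd]
      have hP1U : P1 ⊆ U := (Finset.filter_subset _ _).trans hPU
      have hP2U : P2 ⊆ U := (Finset.filter_subset _ _).trans hPU
      have hP1d : ∀ z ∈ P1, ∀ y ∈ R.S z, y ∈ U → y ∈ P1 := by
        intro z hz y hy hyU
        simp only [hP1, Finset.mem_filter] at hz ⊢
        refine ⟨hP z hz.1 y hy hyU, ?_⟩
        intro hyx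
        rcases R.chain y z x hy hyx with h | h
        · exact hz.2 h
        · have := hmax z hz.1 h
          rw [this] at hz
          exact hz.2 (R.self x)
      have hP2d : ∀ z ∈ P2, ∀ y ∈ R.S z, y ∈ U → y ∈ P2 := by
        intro z hz y hy hyU
        simp only [hP2, Finset.mem_filter] at hz ⊢
        refine ⟨hP z hz.1 y hy hyU, R.trans z x hz.2.1 hy, ?_⟩
        rintro rfl
        exact hz.2.2 (R.antisymm z y hz.2.1 hy)
      have hc1 : P1.card < n := by omega
      have hc2 : P2.card < n := by omega
      obtain ⟨α1, hl1, ho1, hi1⟩ := ih P1.card hc1 P1 rfl hP1U hP1d α hα hαC m hm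
      have hα1C : ∀ y, α1 y ∈ C ↔ y ∈ U := by
        intro y
        by_cases hy : y ∈ P1
        · exact ⟨fun _ => hP1U hy, fun _ => (hi1 y hy).1⟩
        · rw [ho1 y hy]; exact hαC y
      -- choose m'
      have hxU : x ∈ U := hPU hxP
      obtain ⟨m', hm'C, hm'⟩ : ∃ m' ∈ C,
          m' ∉ (insert x ((R.G x).filter (fun y => y ∈ U))).image α1 := by
        have hlt : ((insert x ((R.G x).filter (fun y => y ∈ U))).image α1).card < C.card := by
          have h1 := Finset.card_image_le (s := insert x ((R.G x).filter (fun y => y ∈ U)))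
            (f := α1)
          have h2 := Finset.card_insert_le x ((R.G x).filter (fun y => y ∈ U))
          have h3 := hC x hxU
          omega
        by_contra hcon
        push Not at hcon
        have : C ⊆ (insert x ((R.G x).filter (fun y => y ∈ U))).image α1 := fun c hc => hcon c hc
        exact absurd (Finset.card_le_card this) (not_le.2 hlt)
      have hm'x : α1 x ≠ m' := by
        intro h
        exact hm' (Finset.mem_image.2 ⟨x, Finset.mem_insert_self _ _, h⟩)
      have hm'G : ∀ y ∈ R.G x, α1 y ≠ m' := by
        intro y hy h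
        by_cases hyU : y ∈ U
        · exact hm' (Finset.mem_image.2 ⟨y, Finset.mem_insert_of_mem
            (Finset.mem_filter.2 ⟨hy, hyU⟩), h⟩)
        · exact hyU ((hα1C y).1 (h ▸ hm'C))
      obtain ⟨α2, hl2, ho2, hi2⟩ := ih P2.card hc2 P2 rfl hP2U hP2d α1 hl1.right hα1C m' hm'C
      have hα2C : ∀ y, α2 y ∈ C ↔ y ∈ U := by
        intro y
        by_cases hy : y ∈ P2
        · exact ⟨fun _ => hP2U hy, fun _ => (hi2 y hy).1⟩
        · rw [ho2 y hy]; exact hα1C y
      have hS2 : ∀ y ∈ R.S x, α2 y ≠ m' := by
        intro y hy h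
        by_cases hyU : y ∈ U
        · by_cases hyx : y = x
          · subst hyx
            have hx2 : y ∉ P2 := by simp [hP2]
            rw [ho2 y hx2] at h
            exact hm'x h
          · have hy2 : y ∈ P2 := by
              simp only [hP2, Finset.mem_filter]
              exact ⟨hP x hxP y hy hyU, hy, hyx⟩
            exact (hi2 y hy2).2 h
        · exact hyU ((hα2C y).1 (h ▸ hm'C))
      have hG2 : ∀ y ∈ R.G x, α2 y ≠ m' := by
        intro y hy h
        have hyS := R.disj x y hy
        have hy2 : y ∉ P2 := by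
          simp only [hP2, Finset.mem_filter]
          exact fun h => hyS h.2.1
        rw [ho2 y hy2] at h
        exact hm'G y hy h
      -- recolour the class m in S x
      set Q : Finset V := (R.S x).filter (fun y => α2 y = m) with hQ
      have hQP : ∀ y ∈ Q, y = x ∨ y ∈ P2 := by
        intro y hy
        simp only [hQ, Finset.mem_filter] at hy
        have hyU : y ∈ U := (hα2C y).1 (hy.2 ▸ hm)
        by_cases hyx : y = x
        · exact Or.inl hyx
        · right
          simp only [hP2, Finset.mem_filter]
          exact ⟨hP x hxP y hy.1 hyU, hy.1, hyx⟩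
      have hQcard : Q.card ≤ P2.card + 1 := by
        have : Q ⊆ insert x P2 := by
          intro y hy
          rcases hQP y hy with h | h
          · rw [h]; exact Finset.mem_insert_self _ _
          · exact Finset.mem_insert_of_mem h
        exact (Finset.card_le_card this).trans (Finset.card_insert_le _ _)
      have hl3 : Link D k Q.card α2 (recol α2 (Q : Set V) m') := by
        refine link_recol α2 m' Q ?_
        intro Q' hQ'
        refine legal R hl2.right x (m := m) hS2 hG2 Q' ?_
        intro y hy
        have := hQ' hy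
        simp only [hQ, Finset.coe_filter, Set.mem_ofPred_eq] at this
        exact this
      by_cases hmm : m' = m
      · -- nothing to do
        refine ⟨α2, ((hl1.trans hl2).mono ?_), ?_, ?_⟩
        · have := tri_add P1.card P2.card
          rw [← hPn, hcardsum]
          omega
        · intro y hy
          have hy1 : y ∉ P1 := fun h => hy (Finset.mem_filter.1 h).1
          have hy2 : y ∉ P2 := fun h => hy (Finset.mem_filter.1 h).1
          rw [ho2 y hy2, ho1 y hy1]
        · intro y hy
          refine ⟨(hα2C y).2 (hPU hy), ?_⟩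
          by_cases hyS : y ∈ R.S x
          · rw [← hmm]; exact hS2 y hyS
          · have hy1 : y ∈ P1 := Finset.mem_filter.2 ⟨hy, hyS⟩
            have hy2 : y ∉ P2 := fun h => hyS (Finset.mem_filter.1 h).2.1
            rw [ho2 y hy2]
            exact (hi1 y hy1).2
      · refine ⟨recol α2 (Q : Set V) m', (((hl1.trans hl2).trans hl3).mono ?_), ?_, ?_⟩
        · have := tri_add P1.card P2.card
          rw [← hPn, hcardsum]
          omega
        · intro y hy
          have hyQ : y ∉ (Q : Set V) := by
            intro h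
            rcases hQP y (by exact_mod_cast h) with h | h
            · exact hy (h ▸ hxP)
            · exact hy (Finset.mem_filter.1 h).1
          have hy1 : y ∉ P1 := fun h => hy (Finset.mem_filter.1 h).1
          have hy2 : y ∉ P2 := fun h => hy (Finset.mem_filter.1 h).1
          rw [recol_not hyQ, ho2 y hy2, ho1 y hy1]
        · intro y hy
          by_cases hyQ : y ∈ (Q : Set V)
          · rw [recol_mem hyQ]
            exact ⟨hm'C, hmm⟩
          · rw [recol_not hyQ]
            refine ⟨(hα2C y).2 (hPU hy), ?_⟩
            by_cases hyS : y ∈ R.S x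
            · intro h
              apply hyQ
              simp only [hQ, Finset.coe_filter, Set.mem_ofPred_eq]
              exact ⟨hyS, h⟩
            · have hy1 : y ∈ P1 := Finset.mem_filter.2 ⟨hy, hyS⟩
              have hy2 : y ∉ P2 := fun h => hyS (Finset.mem_filter.1 h).2.1
              rw [ho2 y hy2]
              exact (hi1 y hy1).2

end Pool.Agent.DTW
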