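import Mathlib

/-!
Definitions for MP_25e1c1_co: dicolourings, the dicolouring graph, arboreal decompositions and
directed treewidth (Johnson, Robertson, Seymour, Thomas).
-/

namespace Pool.Agent.DTW

universe u v

/-- One step of a directed walk of `D` that stays inside the vertex set `T`. -/
def StepIn {V : Type u} (D : Digraph V) (T : Set V) (a b : V) : Prop :=
  D.Adj a b ∧ a ∈ T ∧ b ∈ T

/-- The subdigraph of `D` induced by `T` is acyclic: no vertex lies on a closed directed walk of
positive length inside `T`. -/
def AcyclicOn {V : Type u} (D : Digraph V) (T : Set V) : Prop :=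
  ∀ v, ¬ Relation.TransGen (StepIn D T) v v

/-- A `k`-dicolouring: every colour class induces an acyclic subdigraph. -/
def IsDicolouring {V : Type u} (D : Digraph V) (k : ℕ) (α : V → Fin k) : Prop :=
  ∀ i : Fin k, AcyclicOn D {x | α x = i}

/-- The `k`-dicolouring graph: two `k`-dicolourings are adjacent when they differ in the colour of
exactly one vertex. -/
def dicolouringGraph {V : Type u} (D : Digraph V) (k : ℕ) :
    SimpleGraph {α : V → Fin k // IsDicolouring D k α} where
  Adj α β := ∃! x, α.1 x ≠ β.1 x
  symm := ⟨fun α β h => by
    obtain ⟨x, hx, hu⟩ := h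
    exact ⟨x, fun e => hx e.symm, fun y hy => hu y (fun e => hy e.symm)⟩⟩
  loopless := ⟨fun α h => by
    obtain ⟨x, hx, _⟩ := h
    exact hx rfl⟩

/-- `S` is `Z`-normal: `S` is disjoint from `Z`, and no directed walk in `D - Z` starts and ends
in `S` and visits a vertex outside `S ∪ Z`. -/
def IsNormal {V : Type u} (D : Digraph V) (Z S : Set V) : Prop :=
  Disjoint S Z ∧ ∀ a ∈ S, ∀ b ∈ S, ∀ c, c ∉ S ∪ Z →
    ¬ (Relation.ReflTransGen (StepIn D Zᶜ) a c ∧ Relation.ReflTransGen (StepIn D Zᶜ) c b)

/-- An arboreal decomposition of `D` whose out-arborescence has the node set `N`. The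
out-arborescence is given by its root and by the parent of every other node: its arcs are the pairs
`(parent s, s)` with `s ≠ root`. The set `X s` (for `s ≠ root`) is the guard of the arc
`(parent s, s)`; the value `X root` is not used. -/
structure ArborealDecomposition {V : Type u} (D : Digraph V) (N : Type v) where
  root : N
  parent : N → N
  /-- following the parents from any node one arrives at the root -/
  reach : ∀ t, ∃ i : ℕ, parent^[i] t = root
  /-- convention for the unused value of `parent` -/
  parent_root : parent root = root
  W : N → Set V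
  X : N → Set V
  nonempty : ∀ t, (W t).Nonempty
  partition : ∀ x, ∃! t, x ∈ W t
  /-- for every arc `(parent s, s)` the union of the `W t` over the nodes `t` reachable from `s` is
  `X s`-normal -/
  normal : ∀ s, s ≠ root → IsNormal D (X s) {x | ∃ t, (∃ i : ℕ, parent^[i] t = s) ∧ x ∈ W t}

namespace ArborealDecomposition

variable {V : Type u} {D : Digraph V} {N : Type v}

/-- `W t` together with the guards of all arcs incident with `t`. -/
def bag (A : ArborealDecomposition D N) (t : N) : Set V :=
  {x | x ∈ A.W t ∨ (t ≠ A.root ∧ x ∈ A.X t) ∨ ∃ s, s ≠ A.root ∧ A.parent s = t ∧ x ∈ A.X s}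

/-- The width is at most `w`: all the sets `bag t` have at most `w + 1` elements. -/
def WidthLE (A : ArborealDecomposition D N) (w : ℕ) : Prop :=
  ∀ t, (A.bag t).encard ≤ w + 1

end ArborealDecomposition

/-- The directed treewidth: the least `w` such that `D` has an arboreal decomposition (with finitely
many nodes) of width at most `w`. -/
noncomputable def dtw {V : Type u} (D : Digraph V) : ℕ :=
  sInf {w : ℕ | ∃ (m : ℕ) (A : ArborealDecomposition D (Fin m)), A.WidthLE w}

end Pool.Agent.DTW
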