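import Pool.Agent.DTW.Core

namespace Pool.Agent.DTW

open Relation Finset

universe u v

variable {V : Type u} {D : Digraph V} {k : ℕ}

/-! ### first fit -/

/-- first-fit colouring along the injective rank `ρ` -/
noncomputable def ff (ρ : V → ℕ) (G : V → Finset V) : V → ℕ :=
  WellFounded.fix (measure ρ).wf
    (fun v ih => sInf {i : ℕ | ∀ g (hg : ρ g < ρ v), g ∈ G v → ih g hg ≠ i})

theorem ff_eq (ρ : V → ℕ) (G : V → Finset V) (v : V) :
    ff ρ G v = sInf {i : ℕ | ∀ g, ρ g < ρ v → g ∈ G v → ff ρ G g ≠ i} := by
  unfold ff
  rw [WellFounded.fix_eq]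

theorem exists_firstfit [Fintype V] {w : ℕ} (R : World D w) (hD : ∀ v, ¬ D.Adj v v) :
    ∃ τ : V → ℕ, (∀ v, τ v ≤ w) ∧ (∀ v, ∀ i < τ v, ∃ g ∈ R.G v, τ g = i) ∧
      ∀ i, AcyclicOn D {v | τ v = i} := by
  classical
  -- rank
  obtain ⟨ρ, hinj, hlt⟩ : ∃ ρ : V → ℕ, Function.Injective ρ ∧
      ∀ x y, x ∈ R.S y → x ≠ y → ρ y < ρ x := by
    set n := Fintype.card V with hn
    set e := Fintype.equivFin V
    refine ⟨fun x => (n - (R.S x).card) * n + (e x).val, ?_, ?_⟩
    · intro x y hxy
      have hx : (e x).val < n := (e x).isLt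
      have hy : (e y).val < n := (e y).isLt
      have h1 : ((n - (R.S x).card) * n + (e x).val) % n
          = ((n - (R.S y).card) * n + (e y).val) % n := by
        have : (fun x => (n - (R.S x).card) * n + (e x).val) x
          = (fun x => (n - (R.S x).card) * n + (e x).val) y := hxy
        simp only at this
        rw [this]
      rw [Nat.add_comm, Nat.add_mul_mod_self_right, Nat.add_comm ((n - (R.S y).card) * n),
        Nat.add_mul_mod_self_right, Nat.mod_eq_of_lt hx, Nat.mod_eq_of_lt hy] at h1
      exact e.injective (Fin.ext h1)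
    · intro x y hxy hne
      have hsub : R.S x ⊆ R.S y := R.trans x y hxy
      have hss : (R.S x).card < (R.S y).card := by
        refine Finset.card_lt_card ⟨hsub, ?_⟩
        intro h
        exact hne (R.antisymm x y hxy (h (R.self y)))
      have hle : (R.S y).card ≤ n := Finset.card_le_univ _
      have hy : (e y).val < n := (e y).isLt
      have h2 : n - (R.S y).card + 1 ≤ n - (R.S x).card := by omega
      have h3 : (n - (R.S y).card + 1) * n ≤ (n - (R.S x).card) * n := Nat.mul_le_mul_right n h2
      have h4 : (n - (R.S y).card + 1) * n = (n - (R.S y).card) * n + n := by ring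
      show (n - (R.S y).card) * n + (e y).val < (n - (R.S x).card) * n + (e x).val
      omega
  set τ := ff ρ R.G with hτ
  have hex : ∀ v, ∃ i ≤ (R.G v).card, i ∈ {i : ℕ | ∀ g, ρ g < ρ v → g ∈ R.G v → τ g ≠ i} := by
    intro v
    by_contra hcon
    push Not at hcon
    have : Finset.range ((R.G v).card + 1) ⊆ (R.G v).image τ := by
      intro i hi
      have h1 := hcon i (Nat.lt_succ_iff.1 (Finset.mem_range.1 hi))
      simp only [Set.mem_ofPred_eq, not_forall, not_not] at h1
      obtain ⟨g, _, hg, he⟩ := h1
      exact Finset.mem_image.2 ⟨g, hg, he⟩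
    have h2 := Finset.card_le_card this
    rw [Finset.card_range] at h2
    have h3 := Finset.card_image_le (s := R.G v) (f := τ)
    omega
  have hmem : ∀ v, ∀ g, ρ g < ρ v → g ∈ R.G v → τ g ≠ τ v := by
    intro v
    obtain ⟨i, _, hi⟩ := hex v
    have h1 := Nat.sInf_mem (s := {i : ℕ | ∀ g, ρ g < ρ v → g ∈ R.G v → τ g ≠ i}) ⟨i, hi⟩
    have h2 : τ v = sInf {i : ℕ | ∀ g, ρ g < ρ v → g ∈ R.G v → τ g ≠ i} := ff_eq ρ R.G v
    rw [← h2] at h1
    exact h1
  refine ⟨τ, ?_, ?_, ?_⟩
  · intro v
    obtain ⟨i, hi, him⟩ := hex v
    have h2 : τ v = sInf {i : ℕ | ∀ g, ρ g < ρ v → g ∈ R.G v → τ g ≠ i} := ff_eq ρ R.G v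
    rw [h2]
    exact (Nat.sInf_le him).trans (hi.trans (R.card v))
  · intro v i hi
    have h2 : τ v = sInf {i : ℕ | ∀ g, ρ g < ρ v → g ∈ R.G v → τ g ≠ i} := ff_eq ρ R.G v
    rw [h2] at hi
    have h3 := Nat.notMem_of_lt_sInf hi
    simp only [Set.mem_ofPred_eq, not_forall, not_not] at h3
    obtain ⟨g, _, hg, he⟩ := h3
    exact ⟨g, hg, he⟩
  · intro i x hx
    set T : Set V := {v | τ v = i} with hT
    -- the strongly connected part of x inside T
    set Z : Finset V := Finset.univ.filter (fun y =>
      ReflTransGen (StepIn D T) x y ∧ ReflTransGen (StepIn D T) y x) with hZ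
    have hxZ : x ∈ Z := by simp [hZ, ReflTransGen.refl]
    obtain ⟨v, hvZ, hvmax⟩ := Finset.exists_max_image Z ρ ⟨x, hxZ⟩
    have hvx : ReflTransGen (StepIn D T) x v ∧ ReflTransGen (StepIn D T) v x := by
      simpa [hZ] using hvZ
    have hxT : x ∈ T := by
      obtain ⟨y, hy, _⟩ := TransGen.head'_iff.1 hx
      exact hy.2.1
    -- a closed walk through v
    have hv : TransGen (StepIn D T) v v :=
      TransGen.trans_left (TransGen.trans_right hvx.2 hx) hvx.1
    -- Z as the class of v
    have hZv : ∀ y, ReflTransGen (StepIn D T) v y → ReflTransGen (StepIn D T) y v → y ∈ Z := by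
      intro y h1 h2
      simp only [hZ, Finset.mem_filter, Finset.mem_univ, true_and]
      exact ⟨hvx.1.trans h1, h2.trans hvx.2⟩
    have hZT : ∀ y ∈ Z, τ y = i := by
      intro y hy
      have : ReflTransGen (StepIn D T) x y := by
        simp only [hZ, Finset.mem_filter, Finset.mem_univ, true_and] at hy
        exact hy.1
      rcases (ReflTransGen.cases_tail_iff (StepIn D T) x y).1 this with h | ⟨z, _, hz⟩
      · rw [h]; exact hxT
      · exact hz.2.2
    have hv2 : TransGen (StepIn D (T ∩ {y | y ∈ Z})) v v := closed_restrict hZv hv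
    -- no element of Z lies in G v
    have hZG : ∀ y ∈ Z, y ∉ R.G v := by
      intro y hy hyG
      have hne : y ≠ v := by
        rintro rfl
        exact R.disj y y hyG (R.self y)
      have h1 : ρ y ≤ ρ v := hvmax y hy
      have h2 : ρ y < ρ v := lt_of_le_of_ne h1 (fun h => hne (hinj h))
      exact hmem v y h2 hyG ((hZT y hy).trans (hZT v hvZ).symm)
    have hZS : ∀ y ∈ Z, y ∈ R.S v → y = v := by
      intro y hy hyS
      by_contra hne
      exact absurd (hlt y v hyS hne) (not_lt.2 (hvmax y hy))
    -- the closed walk leaves v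
    obtain ⟨y, hvy, hyv⟩ := TransGen.head'_iff.1 hv2
    have hyZ : y ∈ Z := hvy.2.2.2
    have hne : y ≠ v := by
      rintro rfl
      exact hD y hvy.1
    have hyS : y ∉ R.S v := fun h => hne (hZS y hyZ h)
    have hsub : (T ∩ {y | y ∈ Z}) ⊆ {y | y ∉ R.G v} := fun y hy => hZG y hy.2
    exact R.guard v v (R.self v) y hyS
      ⟨ReflTransGen.single (StepIn.mono hsub hvy), rtg_mono hsub hyv⟩

/-! ### the passes -/

theorem to_tau [Fintype V] {w : ℕ} (R : World D w) (hk : w + 2 ≤ k) (τ : V → ℕ)
    (h1 : ∀ v, τ v ≤ w) (h2 : ∀ v, ∀ i < τ v, ∃ g ∈ R.G v, τ g = i)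
    (h3 : ∀ i, AcyclicOn D {v | τ v = i}) (α : V → Fin k) (hα : IsDicolouring D k α) :
    Link D k ((w + 1) * tri (Fintype.card V) + Fintype.card V) α
      (fun v => ⟨τ v, by have := h1 v; omega⟩) := by
  classical
  have key : ∀ j : ℕ, j ≤ w + 1 → ∃ β : V → Fin k,
      Link D k (j * tri (Fintype.card V) + (Finset.univ.filter (fun x => τ x < j)).card) α β ∧
      (∀ x, τ x < j → (β x).val = τ x) ∧ (∀ x, j ≤ τ x → j ≤ (β x).val) := by
    intro j
    induction j with
    | zero =>
      intro _
      exact ⟨α, (Link.refl hα).mono (Nat.zero_le _), fun x hx => absurd hx (Nat.not_lt_zero _),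
        fun x _ => Nat.zero_le _⟩
    | succ j ih =>
      intro hj
      obtain ⟨β, hl, ha, hb⟩ := ih (by omega)
      have hjk : j < k := by omega
      set U : Finset V := Finset.univ.filter (fun x => j ≤ τ x) with hU
      set C : Finset (Fin k) := Finset.univ.filter (fun c => j ≤ c.val) with hC
      have hCcard : C.card = k - j := by
        have : C = (Finset.Ici (⟨j, hjk⟩ : Fin k)) := by
          ext c
          simp [hC, Fin.le_def]
        rw [this, Fin.card_Ici]
      have hβC : ∀ x, β x ∈ C ↔ x ∈ U := by
        intro x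
        simp only [hC, hU, Finset.mem_filter, Finset.mem_univ, true_and]
        constructor
        · intro h
          by_contra hx
          push Not at hx
          have := ha x hx
          omega
        · exact hb x
      have hCG : ∀ x ∈ U, ((R.G x).filter (fun y => y ∈ U)).card + 2 ≤ C.card := by
        intro x hx
        have hxj : j ≤ τ x := by simpa [hU] using hx
        have hle : j ≤ ((R.G x).filter (fun y => ¬ y ∈ U)).card := by
          have hsub : Finset.range j ⊆ ((R.G x).filter (fun y => ¬ y ∈ U)).image τ := by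
            intro i hi
            have hij : i < j := Finset.mem_range.1 hi
            obtain ⟨g, hg, he⟩ := h2 x i (lt_of_lt_of_le hij hxj)
            refine Finset.mem_image.2 ⟨g, Finset.mem_filter.2 ⟨hg, ?_⟩, he⟩
            simp only [hU, Finset.mem_filter, Finset.mem_univ, true_and, not_le]
            omega
          have := (Finset.card_le_card hsub).trans Finset.card_image_le
          rwa [Finset.card_range] at this
        have hsum := Finset.card_filter_add_card_filter_not (s := R.G x) (fun y => y ∈ U)
        have hw := R.card x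
        have := h1 x
        omega
      obtain ⟨γ, hl2, ho, hi⟩ := free_colour R U C hCG U.card U rfl (subset_refl _)
        (fun x _ y _ hy => hy) β hl.right hβC ⟨j, hjk⟩ (by simp [hC])
      set Q : Finset V := Finset.univ.filter (fun x => τ x = j) with hQ
      have hγU : ∀ x, j ≤ τ x → j + 1 ≤ (γ x).val := by
        intro x hx
        have hxU : x ∈ U := by simp [hU, hx]
        obtain ⟨hc, hn⟩ := hi x hxU
        have hc' : j ≤ (γ x).val := by simpa [hC] using hc
        have hn' : (γ x).val ≠ j := fun h => hn (Fin.ext h)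
        omega
      have hγO : ∀ x, τ x < j → (γ x).val = τ x := by
        intro x hx
        have hxU : x ∉ U := by simp [hU, hx]
        rw [ho x hxU]
        exact ha x hx
      have hl3 : Link D k Q.card γ (recol γ (Q : Set V) ⟨j, hjk⟩) := by
        refine link_recol γ _ Q ?_
        intro Q' hQ' i
        by_cases hij : i = ⟨j, hjk⟩
        · subst hij
          refine AcyclicOn.mono ?_ (h3 j)
          intro y hy
          have hy' : recol γ Q' ⟨j, hjk⟩ y = ⟨j, hjk⟩ := hy
          by_cases hyQ : y ∈ Q'
          · have := hQ' hyQ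
            simpa [hQ] using this
          · rw [recol_not hyQ] at hy'
            have hval : (γ y).val = j := by rw [hy']
            rcases lt_or_ge (τ y) j with h | h
            · have := hγO y h
              omega
            · have := hγU y h
              omega
        · refine AcyclicOn.mono ?_ (hl2.right i)
          intro y hy
          have hy' : recol γ Q' ⟨j, hjk⟩ y = i := hy
          by_cases hyQ : y ∈ Q'
          · rw [recol_mem hyQ] at hy'
            exact absurd hy'.symm hij
          · rw [recol_not hyQ] at hy'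
            exact hy'
      refine ⟨recol γ (Q : Set V) ⟨j, hjk⟩, (((hl.trans hl2).trans hl3).mono ?_), ?_, ?_⟩
      · have hUn : tri U.card ≤ tri (Fintype.card V) := tri_mono (Finset.card_le_univ U)
        have hcard : (Finset.univ.filter (fun x => τ x < j + 1)).card
            = (Finset.univ.filter (fun x => τ x < j)).card + Q.card := by
          rw [← Finset.card_union_of_disjoint]
          · congr 1
            ext x
            simp only [hQ, Finset.mem_filter, Finset.mem_univ, true_and, Finset.mem_union]
            omega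
          · rw [Finset.disjoint_left]
            intro x hx hx'
            simp only [hQ, Finset.mem_filter, Finset.mem_univ, true_and] at hx hx'
            omega
        rw [hcard]
        have : (j + 1) * tri (Fintype.card V) = j * tri (Fintype.card V) + tri (Fintype.card V) := by
          ring
        omega
      · intro x hx
        by_cases hxQ : x ∈ (Q : Set V)
        · rw [recol_mem hxQ]
          have : τ x = j := by simpa [hQ] using hxQ
          simp [this]
        · rw [recol_not hxQ]
          have : τ x ≠ j := by simpa [hQ] using hxQ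
          exact hγO x (by omega)
      · intro x hx
        have hxQ : x ∉ (Q : Set V) := by
          simp only [hQ, Finset.coe_filter, Finset.mem_univ, true_and, Set.mem_ofPred_eq]
          omega
        rw [recol_not hxQ]
        exact hγU x (by omega)
  obtain ⟨β, hl, ha, _⟩ := key (w + 1) (le_refl _)
  have he : β = (fun v => ⟨τ v, by have := h1 v; omega⟩) := by
    funext x
    exact Fin.ext (ha x (by have := h1 x; omega))
  rw [← he]
  exact hl.mono (Nat.add_le_add_left (Finset.card_le_univ _) _)

/-- Linking any two dicolourings in a world of width `w` with `k ≥ w + 2` colours. -/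
theorem world_link [Fintype V] {w : ℕ} (R : World D w) (hD : ∀ v, ¬ D.Adj v v) (hk : w + 2 ≤ k) :
    (∃ α : V → Fin k, IsDicolouring D k α) ∧
    ∀ α β : V → Fin k, IsDicolouring D k α → IsDicolouring D k β →
      Link D k ((w + 1) * (Fintype.card V * (Fintype.card V + 1)) + 2 * Fintype.card V) α β := by
  obtain ⟨τ, h1, h2, h3⟩ := exists_firstfit R hD
  refine ⟨⟨fun v => ⟨τ v, by have := h1 v; omega⟩, ?_⟩, ?_⟩
  · intro i
    refine AcyclicOn.mono ?_ (h3 i.val)
    intro y hy
    have hy' : (⟨τ y, by have := h1 y; omega⟩ : Fin k) = i := hy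
    show τ y = i.val
    rw [← hy']
  · intro α β hα hβ
    have ha := to_tau R hk τ h1 h2 h3 α hα
    have hb := (to_tau R hk τ h1 h2 h3 β hβ).symm
    refine (ha.trans hb).mono ?_
    have := two_tri (Fintype.card V)
    have h5 : (w + 1) * (Fintype.card V * (Fintype.card V + 1))
      = (w + 1) * tri (Fintype.card V) + (w + 1) * tri (Fintype.card V) := by
      rw [← this]; ring
    omega

end Pool.Agent.DTW
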