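import Pool.Agent.DTW.Conv

/-!
# Several spare colours (helper9)

With `k = w + 1 + s` colours `s` colours can be freed at the same time, so `⌈(w + 1) / s⌉` passes are
enough. This is the argument of `Core.lean`, `Multi.lean` (helper18) with sets of colours in place of
single colours.
-/

namespace Pool.Agent.DTW

open Relation Finset

universe u v

variable {V : Type u} {D : Digraph V} {k : ℕ}

/-- recolour the vertices `x` of `Q` to `g x` -/
noncomputable def recolF (α : V → Fin k) (Q : Set V) (g : V → Fin k) : V → Fin k :=
  open Classical in fun x => if x ∈ Q then g x else α x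

theorem recolF_mem {α g : V → Fin k} {Q : Set V} {x : V} (h : x ∈ Q) :
    recolF α Q g x = g x := by simp [recolF, h]

theorem recolF_not {α g : V → Fin k} {Q : Set V} {x : V} (h : x ∉ Q) :
    recolF α Q g x = α x := by simp [recolF, h]

theorem link_recolF (α g : V → Fin k) (Q : Finset V)
    (h : ∀ Q' : Set V, Q' ⊆ (Q : Set V) → IsDicolouring D k (recolF α Q' g)) :
    Link D k Q.card α (recolF α (Q : Set V) g) := by
  classical
  induction Q using Finset.induction_on with
  | empty =>
    have h0 := h ∅ (Set.empty_subset _)
    have e : recolF α ((∅ : Finset V) : Set V) g = α := by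
      funext x; exact recolF_not (by simp)
    have e' : recolF α (∅ : Set V) g = α := by
      funext x; exact recolF_not (by simp)
    rw [e]
    rw [e'] at h0
    exact Link.refl h0
  | @insert a Q ha ih =>
    have h1 := ih (fun Q' hQ' => h Q' (hQ'.trans (by simp)))
    have h2 : Link D k 1 (recolF α (Q : Set V) g)
        (recolF α ((insert a Q : Finset V) : Set V) g) := by
      refine Link.step h1.right (h _ (subset_refl _)) a ?_
      intro y hy
      by_cases hyQ : y ∈ Q
      · rw [recolF_mem (by exact_mod_cast hyQ), recolF_mem (by simp [hyQ])]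
      · rw [recolF_not (by exact_mod_cast hyQ), recolF_not (by simp [hyQ, hy])]
    rw [Finset.card_insert_of_notMem ha]
    exact h1.trans h2

/-- Legality of moving the classes of `A` inside `S x` to different colours of a set `B`, no colour
of which occurs on `S x ∪ G x`. -/
theorem legalF {w : ℕ} (R : World D w) {α : V → Fin k} (hα : IsDicolouring D k α) (x : V)
    (A B : Finset (Fin k)) (π : Fin k → Fin k) (hπ : ∀ a ∈ A, π a ∈ B)
    (hinj : ∀ a ∈ A, ∀ a' ∈ A, π a = π a' → a = a')
    (hS : ∀ y ∈ R.S x, α y ∉ B) (hG : ∀ y ∈ R.G x, α y ∉ B)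
    (Q' : Set V) (hQ : ∀ y ∈ Q', y ∈ R.S x ∧ α y ∈ A) :
    IsDicolouring D k (recolF α Q' (fun y => π (α y))) := by
  intro i v hv
  by_cases hi : i ∈ B
  · set T : Set V := {y | recolF α Q' (fun y => π (α y)) y = i} with hT
    have hTG : ∀ y ∈ T, y ∉ R.G x := by
      intro y hy hyG
      have hyS := R.disj x y hyG
      have hyQ : y ∉ Q' := fun h => hyS (hQ y h).1
      have h2 : recolF α Q' (fun y => π (α y)) y = i := hy
      rw [recolF_not hyQ] at h2
      exact hG y hyG (h2 ▸ hi)
    have hsub : T ⊆ {y | y ∉ R.G x} := fun y hy => hTG y hy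
    have hlift : ∀ a b, ReflTransGen (StepIn D T) a b →
        ReflTransGen (StepIn D {y | y ∉ R.G x}) a b := fun a b h => rtg_mono hsub h
    by_cases hvS : v ∈ R.S x
    · have h1 : TransGen (StepIn D (T ∩ {y | y ∈ R.S x})) v v := by
        refine closed_restrict ?_ hv
        intro y hvy hyv
        by_contra hyS
        exact R.guard x v hvS y hyS ⟨hlift _ _ hvy, hlift _ _ hyv⟩
      have hmem : ∀ y, y ∈ T → y ∈ R.S x → y ∈ Q' ∧ π (α y) = i := by
        intro y hyT hyS
        have h2 : recolF α Q' (fun y => π (α y)) y = i := hyT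
        by_cases hyQ : y ∈ Q'
        · rw [recolF_mem hyQ] at h2
          exact ⟨hyQ, h2⟩
        · rw [recolF_not hyQ] at h2
          exact absurd (h2 ▸ hi) (hS y hyS)
      have hvT : v ∈ T := by
        obtain ⟨y, hy, _⟩ := TransGen.head'_iff.1 hv
        exact hy.2.1
      obtain ⟨hvQ, hvi⟩ := hmem v hvT hvS
      refine (hα (α v)) v (tg_mono ?_ h1)
      rintro y ⟨hyT, hyS⟩
      obtain ⟨hyQ, hyi⟩ := hmem y hyT hyS
      exact hinj _ (hQ y hyQ).2 _ (hQ v hvQ).2 (hyi.trans hvi.symm)
    · have h1 : TransGen (StepIn D (T ∩ {y | y ∉ R.S x})) v v := by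
        refine closed_restrict ?_ hv
        intro y hvy hyv hyS
        exact R.guard x y hyS v hvS ⟨hlift _ _ hyv, hlift _ _ hvy⟩
      refine (hα i) v (tg_mono ?_ h1)
      rintro y ⟨hyT, hyS⟩
      have h2 : recolF α Q' (fun y => π (α y)) y = i := hyT
      have hyQ : y ∉ Q' := fun h => hyS (hQ y h).1
      rw [recolF_not hyQ] at h2
      exact h2
  · refine (hα i) v (tg_mono ?_ hv)
    intro y hy
    have h2 : recolF α Q' (fun y => π (α y)) y = i := hy
    by_cases hyQ : y ∈ Q'
    · rw [recolF_mem hyQ] at h2
      exact absurd (h2 ▸ hπ _ (hQ y hyQ).2) hi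
    · rw [recolF_not hyQ] at h2
      exact h2

/-- a bijection between two sets of colours with the same number of elements -/
theorem exists_bij (A B : Finset (Fin k)) (h : A.card = B.card) :
    ∃ π : Fin k → Fin k, (∀ a ∈ A, π a ∈ B) ∧ ∀ a ∈ A, ∀ a' ∈ A, π a = π a' → a = a' := by
  classical
  let e : A ≃ B := Finset.equivOfCardEq h
  refine ⟨fun a => if ha : a ∈ A then (e ⟨a, ha⟩ : Fin k) else a, ?_, ?_⟩
  · intro a ha
    simp only [ha, dif_pos]
    exact (e ⟨a, ha⟩).2
  · intro a ha a' ha' h1
    simp only [ha, ha', dif_pos] at h1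
    have h2 := e.injective (Subtype.ext h1)
    exact congrArg Subtype.val h2

/-- Lemma M: every set `M` of at most `s` colours of `C` can be freed from a relatively down-closed
part `P` of `U`. -/
theorem free_set [DecidableEq V] {w : ℕ} (R : World D w) (U : Finset V) (C : Finset (Fin k))
    (s : ℕ) (hC : ∀ x ∈ U, ((R.G x).filter (fun y => y ∈ U)).card + 1 + s ≤ C.card) :
    ∀ (n : ℕ) (P : Finset V), P.card = n → P ⊆ U →
      (∀ x ∈ P, ∀ y ∈ R.S x, y ∈ U → y ∈ P) →
      ∀ (α : V → Fin k), IsDicolouring D k α → (∀ x, α x ∈ C ↔ x ∈ U) →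
        ∀ M : Finset (Fin k), M ⊆ C → M.card ≤ s →
        ∃ β : V → Fin k, Link D k (tri n) α β ∧ (∀ x, x ∉ P → β x = α x) ∧
          (∀ x ∈ P, β x ∈ C ∧ β x ∉ M) := by
  classical
  intro n
  induction n using Nat.strong_induction_on with
  | _ n ih =>
    intro P hPn hPU hP α hα hαC M hM hMs
    rcases P.eq_empty_or_nonempty with h0 | hne
    · subst h0
      exact ⟨α, (Link.refl hα).mono (Nat.zero_le _), fun x _ => rfl, fun x hx => by simp at hx⟩
    · -- a maximal element of P
      obtain ⟨x, hxP, hxmax⟩ := Finset.exists_max_image P (fun y => (R.S y).card) hne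
      have hmax : ∀ y ∈ P, x ∈ R.S y → y = x := by
        intro y hy hxy
        have hsub := R.trans x y hxy
        have hcard := hxmax y hy
        have heq : R.S x = R.S y := Finset.eq_of_subset_of_card_le hsub hcard
        have : y ∈ R.S x := heq ▸ R.self y
        exact R.antisymm y x this hxy
      set P1 : Finset V := P.filter (fun y => y ∉ R.S x) with hP1
      set P2 : Finset V := P.filter (fun y => y ∈ R.S x ∧ y ≠ x) with hP2
      have hcardsum : P.card = P1.card + P2.card + 1 := by
        have hx1 : x ∉ P1 ∪ P2 := by simp [hP1, hP2, R.self x]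
        have hd : Disjoint P1 P2 := by
          rw [Finset.disjoint_left]
          intro y h1 h2
          simp only [hP1, hP2, Finset.mem_filter] at h1 h2
          exact h1.2 h2.2.1
        have he : P = insert x (P1 ∪ P2) := by
          ext y
          simp only [hP1, hP2, Finset.mem_insert, Finset.mem_union, Finset.mem_filter]
          constructor
          · intro hy
            by_cases hyx : y = x
            · exact Or.inl hyx
            · by_cases hyS : y ∈ R.S x
              · exact Or.inr (Or.inr ⟨hy, hyS, hyx⟩)
              · exact Or.inr (Or.inl ⟨hy, hyS⟩)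
          · rintro (rfl | h | h)
            · exact hxP
            · exact h.1
            · exact h.1
        conv_lhs => rw [he]
        rw [Finset.card_insert_of_notMem hx1, Finset.card_union_of_disjoint hd]
      have hP1U : P1 ⊆ U := (Finset.filter_subset _ _).trans hPU
      have hP2U : P2 ⊆ U := (Finset.filter_subset _ _).trans hPU
      have hP1d : ∀ z ∈ P1, ∀ y ∈ R.S z, y ∈ U → y ∈ P1 := by
        intro z hz y hy hyU
        simp only [hP1, Finset.mem_filter] at hz ⊢
        refine ⟨hP z hz.1 y hy hyU, ?_⟩
        intro hyx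
        rcases R.chain y z x hy hyx with h | h
        · exact hz.2 h
        · have := hmax z hz.1 h
          rw [this] at hz
          exact hz.2 (R.self x)
      have hP2d : ∀ z ∈ P2, ∀ y ∈ R.S z, y ∈ U → y ∈ P2 := by
        intro z hz y hy hyU
        simp only [hP2, Finset.mem_filter] at hz ⊢
        refine ⟨hP z hz.1 y hy hyU, R.trans z x hz.2.1 hy, ?_⟩
        rintro rfl
        exact hz.2.2 (R.antisymm z y hz.2.1 hy)
      have hc1 : P1.card < n := by omega
      have hc2 : P2.card < n := by omega
      obtain ⟨α1, hl1, ho1, hi1⟩ := ih P1.card hc1 P1 rfl hP1U hP1d α hα hαC M hM hMs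
      have hα1C : ∀ y, α1 y ∈ C ↔ y ∈ U := by
        intro y
        by_cases hy : y ∈ P1
        · exact ⟨fun _ => hP1U hy, fun _ => (hi1 y hy).1⟩
        · rw [ho1 y hy]; exact hαC y
      -- choose M'
      have hxU : x ∈ U := hPU hxP
      obtain ⟨M', hM'sub, hM'card⟩ : ∃ M' : Finset (Fin k),
          M' ⊆ C \ (insert x ((R.G x).filter (fun y => y ∈ U))).image α1 ∧
          M'.card = M.card := by
        refine Finset.exists_subset_card_eq ?_
        have h1 := Finset.card_image_le (s := insert x ((R.G x).filter (fun y => y ∈ U)))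
          (f := α1)
        have h2 := Finset.card_insert_le x ((R.G x).filter (fun y => y ∈ U))
        have h3 := hC x hxU
        have h4 := Finset.le_card_sdiff
          ((insert x ((R.G x).filter (fun y => y ∈ U))).image α1) C
        omega
      have hM'C : M' ⊆ C := fun c hc => (Finset.mem_sdiff.1 (hM'sub hc)).1
      have hM'i : ∀ c ∈ M', c ∉ (insert x ((R.G x).filter (fun y => y ∈ U))).image α1 :=
        fun c hc => (Finset.mem_sdiff.1 (hM'sub hc)).2
      have hM'x : α1 x ∉ M' := by
        intro h
        exact hM'i _ h (Finset.mem_image.2 ⟨x, Finset.mem_insert_self _ _, rfl⟩)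
      have hM'G : ∀ y ∈ R.G x, α1 y ∉ M' := by
        intro y hy h
        by_cases hyU : y ∈ U
        · exact hM'i _ h (Finset.mem_image.2 ⟨y, Finset.mem_insert_of_mem
            (Finset.mem_filter.2 ⟨hy, hyU⟩), rfl⟩)
        · exact hyU ((hα1C y).1 (hM'C h))
      obtain ⟨α2, hl2, ho2, hi2⟩ := ih P2.card hc2 P2 rfl hP2U hP2d α1 hl1.right hα1C M' hM'C
        (by omega)
      have hα2C : ∀ y, α2 y ∈ C ↔ y ∈ U := by
        intro y
        by_cases hy : y ∈ P2
        · exact ⟨fun _ => hP2U hy, fun _ => (hi2 y hy).1⟩
        · rw [ho2 y hy]; exact hα1C y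
      have hS2 : ∀ y ∈ R.S x, α2 y ∉ M' := by
        intro y hy h
        by_cases hyU : y ∈ U
        · by_cases hyx : y = x
          · subst hyx
            have hx2 : y ∉ P2 := by simp [hP2]
            rw [ho2 y hx2] at h
            exact hM'x h
          · have hy2 : y ∈ P2 := by
              simp only [hP2, Finset.mem_filter]
              exact ⟨hP x hxP y hy hyU, hy, hyx⟩
            exact (hi2 y hy2).2 h
        · exact hyU ((hα2C y).1 (hM'C h))
      have hG2 : ∀ y ∈ R.G x, α2 y ∉ M' := by
        intro y hy h
        have hyS := R.disj x y hy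
        have hy2 : y ∉ P2 := by
          simp only [hP2, Finset.mem_filter]
          exact fun h => hyS h.2.1
        rw [ho2 y hy2] at h
        exact hM'G y hy h
      -- the bijection
      have hcardAB : (M \ M').card = (M' \ M).card := by
        have e1 := Finset.card_sdiff_add_card_inter M M'
        have e2 := Finset.card_sdiff_add_card_inter M' M
        rw [Finset.inter_comm] at e2
        omega
      obtain ⟨π, hπ, hinj⟩ := exists_bij (M \ M') (M' \ M) hcardAB
      -- recolour the classes of `M \ M'` in S x
      set Q : Finset V := (R.S x).filter (fun y => α2 y ∈ M \ M') with hQ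
      have hQP : ∀ y ∈ Q, y = x ∨ y ∈ P2 := by
        intro y hy
        simp only [hQ, Finset.mem_filter] at hy
        have hyU : y ∈ U := (hα2C y).1 (hM (Finset.mem_sdiff.1 hy.2).1)
        by_cases hyx : y = x
        · exact Or.inl hyx
        · right
          simp only [hP2, Finset.mem_filter]
          exact ⟨hP x hxP y hy.1 hyU, hy.1, hyx⟩
      have hQcard : Q.card ≤ P2.card + 1 := by
        have : Q ⊆ insert x P2 := by
          intro y hy
          rcases hQP y hy with h | h
          · rw [h]; exact Finset.mem_insert_self _ _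
          · exact Finset.mem_insert_of_mem h
        exact (Finset.card_le_card this).trans (Finset.card_insert_le _ _)
      have hl3 : Link D k Q.card α2 (recolF α2 (Q : Set V) (fun y => π (α2 y))) := by
        refine link_recolF α2 _ Q ?_
        intro Q' hQ'
        refine legalF R hl2.right x (M \ M') (M' \ M) π hπ hinj
          (fun y hy h => hS2 y hy (Finset.mem_sdiff.1 h).1)
          (fun y hy h => hG2 y hy (Finset.mem_sdiff.1 h).1) Q' ?_
        intro y hy
        have h5 : y ∈ Q := by exact_mod_cast hQ' hy
        exact Finset.mem_filter.1 h5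
      refine ⟨recolF α2 (Q : Set V) (fun y => π (α2 y)), (((hl1.trans hl2).trans hl3).mono ?_),
        ?_, ?_⟩
      · have := tri_add P1.card P2.card
        rw [← hPn, hcardsum]
        omega
      · intro y hy
        have hyQ : y ∉ (Q : Set V) := by
          intro h
          rcases hQP y (by exact_mod_cast h) with h | h
          · exact hy (h ▸ hxP)
          · exact hy (Finset.mem_filter.1 h).1
        have hy1 : y ∉ P1 := fun h => hy (Finset.mem_filter.1 h).1
        have hy2 : y ∉ P2 := fun h => hy (Finset.mem_filter.1 h).1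
        rw [recolF_not hyQ, ho2 y hy2, ho1 y hy1]
      · intro y hy
        by_cases hyQ : y ∈ (Q : Set V)
        · rw [recolF_mem hyQ]
          have h5 : y ∈ Q := by exact_mod_cast hyQ
          have h6 := hπ _ (Finset.mem_filter.1 h5).2
          exact ⟨hM'C (Finset.mem_sdiff.1 h6).1, (Finset.mem_sdiff.1 h6).2⟩
        · rw [recolF_not hyQ]
          refine ⟨(hα2C y).2 (hPU hy), ?_⟩
          by_cases hyS : y ∈ R.S x
          · intro h
            apply hyQ
            have h5 : y ∈ Q := Finset.mem_filter.2 ⟨hyS, Finset.mem_sdiff.2 ⟨h, hS2 y hyS⟩⟩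
            exact_mod_cast h5
          · have hy1 : y ∈ P1 := Finset.mem_filter.2 ⟨hy, hyS⟩
            have hy2 : y ∉ P2 := fun h => hyS (Finset.mem_filter.1 h).2.1
            rw [ho2 y hy2]
            exact (hi1 y hy1).2

/-! ### the passes -/

theorem to_tauS [Fintype V] {w s : ℕ} (R : World D w) (hs : 1 ≤ s) (hk : w + 1 + s ≤ k)
    (τ : V → ℕ) (h1 : ∀ v, τ v ≤ w) (h2 : ∀ v, ∀ i < τ v, ∃ g ∈ R.G v, τ g = i)
    (h3 : ∀ i, AcyclicOn D {v | τ v = i}) (α : V → Fin k) (hα : IsDicolouring D k α) :
    Link D k ((w + s) / s * tri (Fintype.card V) + Fintype.card V) α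
      (fun v => ⟨τ v, by have := h1 v; omega⟩) := by
  classical
  have key : ∀ t : ℕ, ∃ β : V → Fin k,
      Link D k (t * tri (Fintype.card V) + (Finset.univ.filter (fun x => τ x < t * s)).card) α β ∧
      (∀ x, τ x < t * s → (β x).val = τ x) ∧ (∀ x, t * s ≤ τ x → t * s ≤ (β x).val) := by
    intro t
    induction t with
    | zero =>
      exact ⟨α, (Link.refl hα).mono (Nat.zero_le _),
        fun x hx => absurd hx (by rw [Nat.zero_mul]; exact Nat.not_lt_zero _),
        fun x _ => by rw [Nat.zero_mul]; exact Nat.zero_le _⟩
    | succ t ih =>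
      obtain ⟨β, hl, ha, hb⟩ := ih
      obtain ⟨j, hj⟩ : ∃ j, j = t * s := ⟨_, rfl⟩
      have hj' : (t + 1) * s = j + s := by rw [hj]; ring
      rw [← hj] at hl ha hb
      rw [hj']
      set U : Finset V := Finset.univ.filter (fun x => j ≤ τ x) with hU
      set C : Finset (Fin k) := Finset.univ.filter (fun c => j ≤ c.val) with hC
      set M : Finset (Fin k) := Finset.univ.filter (fun c => j ≤ c.val ∧ c.val < j + s) with hM
      have hMC : M ⊆ C := by
        intro c hc
        simp only [hM, hC, Finset.mem_filter, Finset.mem_univ, true_and] at hc ⊢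
        exact hc.1
      have hMs : M.card ≤ s := by
        have h4 : M.card ≤ (Finset.Ico j (j + s)).card := by
          refine Finset.card_le_card_of_injOn (fun c => c.val) ?_ ?_
          · intro c hc
            have h5 : j ≤ c.val ∧ c.val < j + s := by
              simpa [hM] using hc
            simpa using h5
          · intro c _ c' _ h
            exact Fin.ext h
        rwa [Nat.card_Ico, Nat.add_sub_cancel_left] at h4
      have hβC : ∀ x, β x ∈ C ↔ x ∈ U := by
        intro x
        simp only [hC, hU, Finset.mem_filter, Finset.mem_univ, true_and]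
        constructor
        · intro h
          by_contra hx
          push Not at hx
          have := ha x hx
          omega
        · exact hb x
      have hCG : ∀ x ∈ U, ((R.G x).filter (fun y => y ∈ U)).card + 1 + s ≤ C.card := by
        intro x hx
        have hxj : j ≤ τ x := by simpa [hU] using hx
        have hxw := h1 x
        have hjk : j < k := by omega
        have hCcard : C.card = k - j := by
          have : C = (Finset.Ici (⟨j, hjk⟩ : Fin k)) := by
            ext c
            simp [hC, Fin.le_def]
          rw [this, Fin.card_Ici]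
        have hle : j ≤ ((R.G x).filter (fun y => ¬ y ∈ U)).card := by
          have hsub : Finset.range j ⊆ ((R.G x).filter (fun y => ¬ y ∈ U)).image τ := by
            intro i hi
            have hij : i < j := Finset.mem_range.1 hi
            obtain ⟨g, hg, he⟩ := h2 x i (lt_of_lt_of_le hij hxj)
            refine Finset.mem_image.2 ⟨g, Finset.mem_filter.2 ⟨hg, ?_⟩, he⟩
            simp only [hU, Finset.mem_filter, Finset.mem_univ, true_and, not_le]
            omega
          have := (Finset.card_le_card hsub).trans Finset.card_image_le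
          rwa [Finset.card_range] at this
        have hsum := Finset.card_filter_add_card_filter_not (s := R.G x) (fun y => y ∈ U)
        have hw := R.card x
        omega
      obtain ⟨γ, hl2, ho, hi⟩ := free_set R U C s hCG U.card U rfl (subset_refl _)
        (fun x _ y _ hy => hy) β hl.right hβC M hMC hMs
      set Q : Finset V := Finset.univ.filter (fun x => j ≤ τ x ∧ τ x < j + s) with hQ
      have hγU : ∀ x, j ≤ τ x → j + s ≤ (γ x).val := by
        intro x hx
        have hxU : x ∈ U := by simp [hU, hx]
        obtain ⟨hc, hn⟩ := hi x hxU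
        have hc' : j ≤ (γ x).val := by simpa [hC] using hc
        by_contra hlt
        apply hn
        simp only [hM, Finset.mem_filter, Finset.mem_univ, true_and]
        exact ⟨hc', not_le.1 hlt⟩
      have hγO : ∀ x, τ x < j → (γ x).val = τ x := by
        intro x hx
        have hxU : x ∉ U := by simp [hU, hx]
        rw [ho x hxU]
        exact ha x hx
      have hl3 : Link D k Q.card γ
          (recolF γ (Q : Set V) (fun v => ⟨τ v, by have := h1 v; omega⟩)) := by
        refine link_recolF γ _ Q ?_
        intro Q' hQ' i
        by_cases hij : i.val < j + s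
        · refine AcyclicOn.mono ?_ (h3 i.val)
          intro y hy
          have hy' : recolF γ Q' (fun v => ⟨τ v, by have := h1 v; omega⟩) y = i := hy
          by_cases hyQ : y ∈ Q'
          · rw [recolF_mem hyQ] at hy'
            exact congrArg Fin.val hy'
          · rw [recolF_not hyQ] at hy'
            have hval : (γ y).val = i.val := by rw [hy']
            rcases lt_or_ge (τ y) j with h | h
            · exact (hγO y h).symm.trans hval
            · have := hγU y h
              omega
        · refine AcyclicOn.mono ?_ (hl2.right i)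
          intro y hy
          have hy' : recolF γ Q' (fun v => ⟨τ v, by have := h1 v; omega⟩) y = i := hy
          by_cases hyQ : y ∈ Q'
          · rw [recolF_mem hyQ] at hy'
            have h5 : y ∈ Q := by exact_mod_cast hQ' hyQ
            have h6 : j ≤ τ y ∧ τ y < j + s := by simpa [hQ] using h5
            have h7 : τ y = i.val := congrArg Fin.val hy'
            omega
          · rw [recolF_not hyQ] at hy'
            exact hy'
      refine ⟨recolF γ (Q : Set V) (fun v => ⟨τ v, by have := h1 v; omega⟩),
        (((hl.trans hl2).trans hl3).mono ?_), ?_, ?_⟩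
      · have hUn : tri U.card ≤ tri (Fintype.card V) := tri_mono (Finset.card_le_univ U)
        have hcard : (Finset.univ.filter (fun x => τ x < j + s)).card
            = (Finset.univ.filter (fun x => τ x < j)).card + Q.card := by
          rw [← Finset.card_union_of_disjoint]
          · congr 1
            ext x
            simp only [hQ, Finset.mem_filter, Finset.mem_univ, true_and, Finset.mem_union]
            omega
          · rw [Finset.disjoint_left]
            intro x hx hx'
            simp only [hQ, Finset.mem_filter, Finset.mem_univ, true_and] at hx hx'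
            omega
        rw [hcard]
        have : (t + 1) * tri (Fintype.card V) = t * tri (Fintype.card V) + tri (Fintype.card V) := by
          ring
        omega
      · intro x hx
        by_cases hxQ : x ∈ (Q : Set V)
        · rw [recolF_mem hxQ]
        · rw [recolF_not hxQ]
          have h5 : ¬ (j ≤ τ x ∧ τ x < j + s) := by simpa [hQ] using hxQ
          exact hγO x (by omega)
      · intro x hx
        have hxQ : x ∉ (Q : Set V) := by
          simp only [hQ, Finset.coe_filter, Finset.mem_univ, true_and, Set.mem_ofPred_eq]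
          omega
        rw [recolF_not hxQ]
        exact hγU x (by omega)
  obtain ⟨β, hl, ha, _⟩ := key ((w + s) / s)
  have hp : w < (w + s) / s * s := by
    have h4 := Nat.lt_div_mul_add (a := w + s) (b := s) hs
    omega
  have he : β = (fun v => ⟨τ v, by have := h1 v; omega⟩) := by
    funext x
    exact Fin.ext (ha x (by have := h1 x; omega))
  rw [← he]
  exact hl.mono (Nat.add_le_add_left (Finset.card_le_univ _) _)

/-- Linking any two dicolourings in a world of width `w` with `k ≥ w + 2` colours. -/
theorem world_linkS [Fintype V] {w : ℕ} (R : World D w) (hD : ∀ v, ¬ D.Adj v v)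
    (hk : w + 2 ≤ k) :
    (∃ α : V → Fin k, IsDicolouring D k α) ∧
    ∀ α β : V → Fin k, IsDicolouring D k α → IsDicolouring D k β →
      Link D k ((k - 1) / (k - w - 1) * (Fintype.card V * (Fintype.card V + 1)) +
        2 * Fintype.card V) α β := by
  obtain ⟨τ, h1, h2, h3⟩ := exists_firstfit R hD
  refine ⟨⟨fun v => ⟨τ v, by have := h1 v; omega⟩, ?_⟩, ?_⟩
  · intro i
    refine AcyclicOn.mono ?_ (h3 i.val)
    intro y hy
    have hy' : (⟨τ y, by have := h1 y; omega⟩ : Fin k) = i := hy
    show τ y = i.val
    rw [← hy']
  · intro α β hα hβ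
    obtain ⟨s, hs⟩ : ∃ s, k = w + 1 + s := ⟨k - w - 1, by omega⟩
    have ha := to_tauS R (s := s) (by omega) (by omega) τ h1 h2 h3 α hα
    have hb := (to_tauS R (s := s) (by omega) (by omega) τ h1 h2 h3 β hβ).symm
    refine (ha.trans hb).mono ?_
    have e1 : k - 1 = w + s := by omega
    have e2 : k - w - 1 = s := by omega
    rw [e1, e2]
    have h4 := two_tri (Fintype.card V)
    have h5 : (w + s) / s * (Fintype.card V * (Fintype.card V + 1))
      = (w + s) / s * tri (Fintype.card V) + (w + s) / s * tri (Fintype.card V) := by
      rw [← h4]; ring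
    omega

theorem mainS {V : Type u} [Fintype V] (D : Digraph V) (hD : ∀ v, ¬ D.Adj v v) (k : ℕ)
    (hk : dtw D + 2 ≤ k) :
    (dicolouringGraph D k).Connected ∧
      (dicolouringGraph D k).ediam ≤
        (((k - 1) / (k - dtw D - 1) * (Fintype.card V * (Fintype.card V + 1)) +
          2 * Fintype.card V : ℕ) : ℕ∞) := by
  have key : (∃ α : V → Fin k, IsDicolouring D k α) ∧
      ∀ α β : V → Fin k, IsDicolouring D k α → IsDicolouring D k β →
        Link D k ((k - 1) / (k - dtw D - 1) * (Fintype.card V * (Fintype.card V + 1)) +
          2 * Fintype.card V) α β := by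
    cases isEmpty_or_nonempty V
    · have hdic : ∀ α : V → Fin k, IsDicolouring D k α := fun α i v => (IsEmpty.false v).elim
      refine ⟨⟨fun v => (IsEmpty.false v).elim, hdic _⟩, ?_⟩
      intro α β hα hβ
      have : α = β := funext fun v => (IsEmpty.false v).elim
      subst this
      exact (Link.refl hα).mono (Nat.zero_le _)
    · obtain ⟨m, A, hA⟩ := dtw_mem D
      exact world_linkS (A.toWorld hA) hD hk
  obtain ⟨⟨α0, hα0⟩, hlink⟩ := key
  have : Nonempty {α : V → Fin k // IsDicolouring D k α} := ⟨⟨α0, hα0⟩⟩
  have hed : (dicolouringGraph D k).ediam ≤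
      (((k - 1) / (k - dtw D - 1) * (Fintype.card V * (Fintype.card V + 1)) +
        2 * Fintype.card V : ℕ) : ℕ∞) := by
    refine SimpleGraph.ediam_le_of_edist_le ?_
    rintro ⟨α, hα⟩ ⟨β, hβ⟩
    obtain ⟨_, _, p, hp⟩ := hlink α β hα hβ
    exact (SimpleGraph.Walk.edist_le p).trans (by exact_mod_cast hp)
  refine ⟨?_, hed⟩
  refine SimpleGraph.connected_of_ediam_ne_top ?_
  intro h
  rw [h] at hed
  exact absurd (top_le_iff.1 hed) (ENat.natCast_ne_top _)

end Pool.Agent.DTW
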